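import Mathlib

set_option autoImplicit false

namespace Pool.Agent.Results.MP_1231ed_gt.Counterexample

/-- The Euclidean product distance on `A × A`. -/
noncomputable def squareDist {A : Type} [MetricSpace A] (p q : A × A) : ℝ :=
  √(dist p.1 q.1 ^ 2 + dist p.2 q.2 ^ 2)

/-- There are metric spaces `A` and `B` that are not isometric although `A²` and `B²`, with the
Euclidean product metric, are isometric. -/
theorem result : ∃ (A B : Type) (_ : MetricSpace A) (_ : MetricSpace B),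
    (∃ φ : A × A ≃ B × B, ∀ p q : A × A, squareDist (φ p) (φ q) = squareDist p q) ∧
      ¬ ∃ ψ : A ≃ B, ∀ a a' : A, dist (ψ a) (ψ a') = dist a a' := by
  have h2 : (0 : ℝ) < √2 := by positivity
  have h2' : √2 ^ 2 = 2 := Real.sq_sqrt (by norm_num)
  -- multiplication by `√2` on `ℚ`
  let g : ℚ ≃ {x : ℝ // ∃ q : ℚ, x = √2 * q} :=
    Equiv.ofBijective (fun q => ⟨√2 * q, q, rfl⟩) ⟨by
      intro q q' h
      have h' : √2 * (q : ℝ) = √2 * (q' : ℝ) := congrArg Subtype.val h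
      exact_mod_cast mul_left_cancel₀ h2.ne' h', by
      rintro ⟨_, q, rfl⟩
      exact ⟨q, rfl⟩⟩
  have hg : ∀ q q' : ℚ, dist (g q) (g q') = √2 * |(q : ℝ) - q'| := by
    intro q q'
    show |√2 * (q : ℝ) - √2 * (q' : ℝ)| = _
    rw [← mul_sub, abs_mul, abs_of_pos h2]
  let r : ℚ × ℚ ≃ ℚ × ℚ :=
    { toFun := fun p => ((p.1 + p.2) / 2, (p.2 - p.1) / 2)
      invFun := fun p => (p.1 - p.2, p.1 + p.2)
      left_inv := by rintro ⟨x, y⟩; ext <;> simp <;> ring
      right_inv := by rintro ⟨x, y⟩; ext <;> simp }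
  refine ⟨ℚ, {x : ℝ // ∃ q : ℚ, x = √2 * q}, inferInstance, inferInstance,
    ⟨r.trans (Equiv.prodCongr g g), ?_⟩, ?_⟩
  · rintro ⟨x, y⟩ ⟨x', y'⟩
    unfold squareDist
    congr 1
    show dist (g ((x + y) / 2)) (g ((x' + y') / 2)) ^ 2 +
      dist (g ((y - x) / 2)) (g ((y' - x') / 2)) ^ 2 = dist x x' ^ 2 + dist y y' ^ 2
    rw [hg, hg, mul_pow, mul_pow, h2', sq_abs, sq_abs, Rat.dist_eq, Rat.dist_eq, sq_abs, sq_abs]
    push_cast
    ring
  · rintro ⟨ψ, hψ⟩
    obtain ⟨a, ha⟩ := g.surjective (ψ 0)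
    obtain ⟨b, hb⟩ := g.surjective (ψ 1)
    have h := hψ 0 1
    rw [← ha, ← hb, hg, Rat.dist_eq] at h
    norm_num at h
    have hirr := irrational_sqrt_two
    apply hirr
    have hne : |(a : ℝ) - b| ≠ 0 := by
      intro h0
      rw [h0, mul_zero] at h
      exact zero_ne_one h
    refine ⟨1 / |a - b|, ?_⟩
    push_cast
    field_simp
    linarith

end Pool.Agent.Results.MP_1231ed_gt.Counterexample
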